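import Pool.Agent.V8H27.GC.Defs

/-!
# Relative homology of convex families of faces
-/

set_option autoImplicit false

noncomputable section

open Classical

namespace Pool.Agent.V8H17.GC

open Pool.Agent.W907.SG Pool.Agent.V8H27.GC

variable {F : Type} [Field F] {V : Type} [Fintype V] [LinearOrder V]

/-- restriction of a chain to a family -/
def rs (D : Set (Finset V)) (c : Finset V → F) : Finset V → F := fun T => if T ∈ D then c T else 0

omit [Fintype V] [LinearOrder V] in
theorem rs_in {D : Set (Finset V)} {c : Finset V → F} {T : Finset V} (h : T ∈ D) : rs D c T = c T := if_pos h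

omit [Fintype V] [LinearOrder V] in
theorem rs_out {D : Set (Finset V)} {c : Finset V → F} {T : Finset V} (h : T ∉ D) : rs D c T = 0 := if_neg h

/-- the boundary at `T` depends on the values at the faces `insert v T` -/
theorem bd_congr {c d : Finset V → F} {T : Finset V} (h : ∀ v, v ∉ T → c (insert v T) = d (insert v T)) :
    bd F c T = bd F d T := by
  rw [bd_apply, bd_apply]
  refine Finset.sum_congr rfl fun v hv => ?_
  rw [h v (Finset.mem_compl.1 hv)]

theorem bd_zero' {c : Finset V → F} {T : Finset V} (h : ∀ v, v ∉ T → c (insert v T) = 0) :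
    bd F c T = 0 := by
  rw [bd_apply]
  refine Finset.sum_eq_zero fun v hv => ?_
  rw [h v (Finset.mem_compl.1 hv), smul_zero]

theorem bd_sub (c d : Finset V → F) (T : Finset V) : bd F (c - d) T = bd F c T - bd F d T := by
  rw [map_sub]; rfl

theorem bd_add (c d : Finset V → F) (T : Finset V) : bd F (c + d) T = bd F c T + bd F d T := by
  rw [map_add]; rfl

theorem bd_smul (a : F) (c : Finset V → F) (T : Finset V) : bd F (a • c) T = a * bd F c T := by
  rw [map_smul]; rfl

/-- degree of the boundary -/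
theorem bd_deg {D : Set (Finset V)} {i : ℕ} {e : Finset V → F} (h : Sup D (i + 1) e) {T : Finset V}
    (hT : T.card ≠ i) : bd F e T = 0 := by
  refine bd_zero' fun v hv => h _ ?_
  rintro ⟨_, h2⟩
  rw [Finset.card_insert_of_notMem hv] at h2
  omega

/-- the boundary of a chain of a convex family is a relative cycle -/
theorem cvx {D : Set (Finset V)} (hD : Convex D) {i : ℕ} {e : Finset V → F} (he : Sup D i e) {T : Finset V}
    (hT : T ∈ D) : bd F (rs D (bd F e)) T = 0 := by
  have h1 : bd F (bd F e) T = 0 := by rw [bd_bd]; rfl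
  rw [← h1]
  refine bd_congr fun v hv => ?_
  by_cases h : insert v T ∈ D
  · exact rs_in h
  · rw [rs_out h]
    symm
    refine bd_zero' fun u hu => he _ ?_
    rintro ⟨h2, _⟩
    exact h (hD T hT _ h2 _ (Finset.subset_insert _ _) (Finset.subset_insert _ _))

omit [Fintype V] [LinearOrder V] in
theorem Sup.mono {D E : Set (Finset V)} {i : ℕ} {c : Finset V → F} (h : Sup D i c) (hs : D ⊆ E) : Sup E i c :=
  fun T hT => h T fun h' => hT ⟨hs h'.1, h'.2⟩

omit [Fintype V] [LinearOrder V] in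
theorem Sup.rs {D E : Set (Finset V)} {i : ℕ} {c : Finset V → F} (h : Sup D i c) : Sup E i (rs E c) := by
  intro T hT
  by_cases h1 : T ∈ E
  · rw [rs_in h1]
    exact h T fun h2 => hT ⟨h1, h2.2⟩
  · exact rs_out h1

omit [Fintype V] [LinearOrder V] in
theorem Sup.sub {D : Set (Finset V)} {i : ℕ} {c d : Finset V → F} (h : Sup D i c) (h' : Sup D i d) :
    Sup D i (c - d) := fun T hT => by rw [Pi.sub_apply, h T hT, h' T hT, sub_zero]

omit [Fintype V] [LinearOrder V] in
theorem Sup.add {D : Set (Finset V)} {i : ℕ} {c d : Finset V → F} (h : Sup D i c) (h' : Sup D i d) :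
    Sup D i (c + d) := fun T hT => by rw [Pi.add_apply, h T hT, h' T hT, add_zero]

omit [Fintype V] [LinearOrder V] in
theorem Sup.smul {D : Set (Finset V)} {i : ℕ} (a : F) {c : Finset V → F} (h : Sup D i c) :
    Sup D i (a • c) := fun T hT => by rw [Pi.smul_apply, h T hT, smul_zero]

theorem Sup.bd {D : Set (Finset V)} {i : ℕ} {e : Finset V → F} (h : Sup D (i + 1) e) (E : Set (Finset V)) :
    Sup E i (GC.rs E (bd F e)) := by
  intro T hT
  by_cases h1 : T ∈ E
  · rw [rs_in h1]
    exact bd_deg h fun h2 => hT ⟨h1, h2⟩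
  · exact rs_out h1

theorem Cyc.sub {D : Set (Finset V)} {i : ℕ} {c d : Finset V → F} (h : Cyc D i c) (h' : Cyc D i d) :
    Cyc D i (c - d) := ⟨Sup.sub h.1 h'.1, fun T hT => by rw [bd_sub, h.2 T hT, h'.2 T hT, sub_zero]⟩

theorem Cyc.smul {D : Set (Finset V)} {i : ℕ} (a : F) {c : Finset V → F} (h : Cyc D i c) :
    Cyc D i (a • c) := ⟨Sup.smul a h.1, fun T hT => by rw [bd_smul, h.2 T hT, mul_zero]⟩

theorem Bdy.add {D : Set (Finset V)} {i : ℕ} {c d : Finset V → F} (h : Bdy D i c) (h' : Bdy D i d) :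
    Bdy D i (c + d) := by
  obtain ⟨e, he1, he2⟩ := h
  obtain ⟨f, hf1, hf2⟩ := h'
  exact ⟨e + f, Sup.add he1 hf1, fun T hT => by rw [bd_add, he2 T hT, hf2 T hT, Pi.add_apply]⟩

theorem Bdy.smul {D : Set (Finset V)} {i : ℕ} (a : F) {c : Finset V → F} (h : Bdy D i c) :
    Bdy D i (a • c) := by
  obtain ⟨e, he1, he2⟩ := h
  exact ⟨a • e, Sup.smul a he1, fun T hT => by rw [bd_smul, he2 T hT, Pi.smul_apply, smul_eq_mul]⟩

theorem Bdy.sub {D : Set (Finset V)} {i : ℕ} {c d : Finset V → F} (h : Bdy D i c) (h' : Bdy D i d) :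
    Bdy D i (c - d) := by
  obtain ⟨e, he1, he2⟩ := h
  obtain ⟨f, hf1, hf2⟩ := h'
  exact ⟨e - f, Sup.sub he1 hf1, fun T hT => by rw [bd_sub, he2 T hT, hf2 T hT, Pi.sub_apply]⟩

/-- a family which is invariant under adding and removing `a` is acyclic -/
theorem toggle {E : Set (Finset V)} (a : V) (h : ∀ T, a ∉ T → (T ∈ E ↔ insert a T ∈ E)) (i : ℕ) : H0 F E i := by
  intro c hc
  refine ⟨fun T => if T ∈ E ∧ a ∈ T then sg a (T.erase a) • c (T.erase a) else 0, ?_, ?_⟩
  · intro T hT
    show (if T ∈ E ∧ a ∈ T then sg a (T.erase a) • c (T.erase a) else 0) = 0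
    by_cases h1 : T ∈ E ∧ a ∈ T
    · rw [if_pos h1, hc.1, smul_zero]
      rintro ⟨h2, h3⟩
      apply hT
      refine ⟨h1.1, ?_⟩
      rw [← Finset.card_erase_add_one h1.2, h3]
    · exact if_neg h1
  · intro T hT
    by_cases ha : a ∈ T
    · obtain ⟨S, hS, rfl⟩ : ∃ S, a ∉ S ∧ T = insert a S := ⟨T.erase a, Finset.notMem_erase _ _, (Finset.insert_erase ha).symm⟩
      have hSE : S ∈ E := (h S hS).2 hT
      have h1 := hc.2 S hSE
      have h2 : Sᶜ = insert a (insert a S)ᶜ := by
        ext v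
        simp only [Finset.mem_compl, Finset.mem_insert, not_or]
        by_cases hv : v = a
        · simp [hv, hS]
        · simp [hv]
      have h3 : a ∉ (insert a S)ᶜ := by simp
      rw [bd_apply, h2, Finset.sum_insert h3] at h1
      rw [bd_apply]
      have h4 : ∀ v ∈ (insert a S)ᶜ, sg v (insert a S) • (if insert v (insert a S) ∈ E ∧ a ∈ insert v (insert a S) then
          sg a ((insert v (insert a S)).erase a) • c ((insert v (insert a S)).erase a) else 0) =
          - sg a S • (sg v S • c (insert v S)) := by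
        intro v hv
        rw [Finset.mem_compl, Finset.mem_insert, not_or] at hv
        have h5 : (insert v (insert a S)).erase a = insert v S := by
          rw [Finset.insert_comm, Finset.erase_insert]
          rw [Finset.mem_insert, not_or]
          exact ⟨Ne.symm hv.1, hS⟩
        have h6 : a ∉ insert v S := by
          rw [Finset.mem_insert, not_or]
          exact ⟨Ne.symm hv.1, hS⟩
        have h7 : insert v (insert a S) ∈ E ↔ insert v S ∈ E := by
          rw [Finset.insert_comm]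
          exact (h _ h6).symm
        have h8 := sg_swap a v S (Ne.symm hv.1) hS hv.2
        by_cases h9 : insert v S ∈ E
        · rw [if_pos ⟨h7.2 h9, by simp⟩, h5, smul_smul, smul_smul]
          congr 1
          have e1 := sg_mul_self a S
          have e2 := sg_mul_self a (insert v S)
          have : sg v (insert a S) = - (sg a (insert v S) * sg v S * sg a S) := by
            rw [h8]; linear_combination (- sg v (insert a S)) * e1
          rw [this]
          linear_combination (- sg a S * sg v S) * e2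
        · rw [if_neg (fun h' => h9 (h7.1 h'.1)), hc.1 _ (fun h' => h9 h'.1)]
          simp
      rw [Finset.sum_congr rfl h4, ← Finset.smul_sum]
      have h5 : ∑ v ∈ (insert a S)ᶜ, sg v S • c (insert v S) = - (sg a S • c (insert a S)) := by
        rw [eq_neg_iff_add_eq_zero, add_comm]
        exact h1
      rw [h5, neg_smul, smul_neg, neg_neg, smul_smul, sg_mul_self, one_smul]
    · rw [bd_apply, Finset.sum_eq_single a]
      · rw [if_pos ⟨(h T ha).1 hT, Finset.mem_insert_self _ _⟩, Finset.erase_insert ha, smul_smul, sg_mul_self, one_smul]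
      · intro v _ hva
        rw [if_neg, smul_zero]
        rintro ⟨_, h2⟩
        rcases Finset.mem_insert.1 h2 with h3 | h3
        · exact hva h3.symm
        · exact ha h3
      · intro h2
        exact absurd (Finset.mem_compl.2 ha) h2

/-- removing an acyclic open part -/
theorem iso_sub {D D' : Set (Finset V)} (hD : Convex D) (hs : D' ⊆ D) (hd : ∀ T ∈ D', ∀ S ∈ D, S ⊆ T → S ∈ D')
    (hE : ∀ i, H0 F (D \ D') i) (i : ℕ) : Iso F D' i D i := by
  -- chains of `D'` have no boundary outside of `D'`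
  have k1 : ∀ {j : ℕ} {c : Finset V → F}, Sup D' j c → ∀ T ∈ D, T ∉ D' → bd F c T = 0 := by
    intro j c hc T hT hT'
    refine bd_zero' fun v hv => hc _ ?_
    rintro ⟨h1, _⟩
    exact hT' (hd _ h1 _ hT (Finset.subset_insert _ _))
  have k2 : ∀ {c : Finset V → F}, (∀ T, T ∉ D → c T = 0) → c = rs (D \ D') c + rs D' c := by
    intro c hc
    funext T
    rw [Pi.add_apply]
    by_cases h1 : T ∈ D'
    · rw [rs_in h1, rs_out (fun h => h.2 h1), zero_add]
    · rw [rs_out h1, add_zero]
      by_cases h2 : T ∈ D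
      · rw [rs_in (show T ∈ D \ D' from ⟨h2, h1⟩)]
      · rw [rs_out (fun h => h2 h.1), hc T h2]
  -- the part of a cycle outside of `D'`
  have k3 : ∀ {j : ℕ} {c : Finset V → F}, Sup D j c → (∀ T ∈ D, T ∉ D' → bd F c T = 0) →
      Cyc (D \ D') j (rs (D \ D') c) := by
    intro j c hc h1
    refine ⟨Sup.rs hc, fun T hT => ?_⟩
    have h2 : bd F c T = bd F (rs (D \ D') c) T + bd F (rs D' c) T := by
      rw [← bd_add, ← k2 fun T hT => hc T fun h => hT h.1]
    rw [h1 T hT.1 hT.2, k1 (Sup.rs hc) T hT.1 hT.2, add_zero] at h2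
    exact h2.symm
  refine ⟨LinearMap.id, ?_, ?_, ?_⟩
  · rintro c ⟨h1, h2⟩
    refine ⟨(Sup.mono h1 hs), fun T hT => ?_⟩
    by_cases h3 : T ∈ D'
    · exact h2 T h3
    · exact k1 h1 T hT h3
  · intro c hc
    constructor
    · rintro ⟨e, he1, he2⟩
      obtain ⟨g, hg1, hg2⟩ := hE (i + 1) _ (k3 he1 fun T hT hT' => by
        rw [he2 T hT]
        exact hc.1 T fun h => hT' h.1)
      refine ⟨rs D' (e - bd F g), ?_, ?_⟩
      · intro T hT
        by_cases h1 : T ∈ D'
        · rw [rs_in h1, Pi.sub_apply, he1 T fun h => hT ⟨h1, h.2⟩, bd_deg hg1 fun h => hT ⟨h1, h⟩, sub_zero]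
        · exact rs_out h1
      · intro T hT
        have h1 : bd F (rs D' (e - bd F g)) T = bd F (e - rs D (bd F g)) T := by
          refine bd_congr fun v hv => ?_
          by_cases h2 : insert v T ∈ D'
          · rw [rs_in h2, Pi.sub_apply, Pi.sub_apply, rs_in (hs h2)]
          · rw [rs_out h2, Pi.sub_apply]
            by_cases h3 : insert v T ∈ D
            · rw [rs_in h3, hg2 _ ⟨h3, h2⟩, rs_in (⟨h3, h2⟩ : insert v T ∈ D \ D'), sub_self]
            · rw [rs_out h3, he1 _ fun h => h3 h.1, sub_zero]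
        rw [h1, bd_sub, cvx hD (Sup.mono hg1 Set.diff_subset) (hs hT), sub_zero, he2 T (hs hT)]
        rfl
    · rintro ⟨e, he1, he2⟩
      refine ⟨e, (Sup.mono he1 hs), fun T hT => ?_⟩
      by_cases h1 : T ∈ D'
      · exact he2 T h1
      · rw [k1 he1 T hT h1]
        exact (hc.1 T fun h => h1 h.1).symm
  · intro c hc
    obtain ⟨g, hg1, hg2⟩ := hE i _ (k3 hc.1 fun T hT _ => hc.2 T hT)
    refine ⟨rs D' (c - bd F g), ⟨?_, ?_⟩, g, (Sup.mono hg1 Set.diff_subset), ?_⟩
    · intro T hT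
      by_cases h1 : T ∈ D'
      · rw [rs_in h1, Pi.sub_apply, hc.1 T fun h => hT ⟨h1, h.2⟩, bd_deg hg1 fun h => hT ⟨h1, h⟩, sub_zero]
      · exact rs_out h1
    · intro T hT
      have h1 : bd F (rs D' (c - bd F g)) T = bd F (c - rs D (bd F g)) T := by
        refine bd_congr fun v hv => ?_
        by_cases h2 : insert v T ∈ D'
        · rw [rs_in h2, Pi.sub_apply, Pi.sub_apply, rs_in (hs h2)]
        · rw [rs_out h2, Pi.sub_apply]
          by_cases h3 : insert v T ∈ D
          · rw [rs_in h3, hg2 _ ⟨h3, h2⟩, rs_in (⟨h3, h2⟩ : insert v T ∈ D \ D'), sub_self]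
          · rw [rs_out h3, hc.1 _ fun h => h3 h.1, sub_zero]
      rw [h1, bd_sub, cvx hD (Sup.mono hg1 Set.diff_subset) (hs hT), sub_zero, hc.2 T (hs hT)]
    · intro T hT
      rw [LinearMap.id_apply, Pi.sub_apply]
      by_cases h1 : T ∈ D'
      · rw [rs_in h1, Pi.sub_apply, sub_sub_cancel]
      · rw [rs_out h1, sub_zero, hg2 T ⟨hT, h1⟩, rs_in (⟨hT, h1⟩ : T ∈ D \ D')]

/-- restriction as a linear map -/
def rsL (D : Set (Finset V)) : (Finset V → F) →ₗ[F] (Finset V → F) where
  toFun := rs D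
  map_add' c d := by
    funext T
    by_cases h : T ∈ D
    · rw [Pi.add_apply, rs_in h, rs_in h, rs_in h]; rfl
    · rw [Pi.add_apply, rs_out h, rs_out h, rs_out h, add_zero]
  map_smul' a c := by
    funext T
    by_cases h : T ∈ D
    · rw [RingHom.id_apply, Pi.smul_apply, rs_in h, rs_in h]; rfl
    · rw [RingHom.id_apply, Pi.smul_apply, rs_out h, rs_out h, smul_zero]

/-- the connecting map -/
theorem iso_conn {D D' : Set (Finset V)} (hD : Convex D) (hs : D' ⊆ D) (hd : ∀ T ∈ D', ∀ S ∈ D, S ⊆ T → S ∈ D')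
    (hA : ∀ i, H0 F D i) (i : ℕ) : Iso F (D \ D') (i + 1) D' i := by
  have k1 : ∀ {j : ℕ} {c : Finset V → F}, Sup D' j c → ∀ T ∈ D, T ∉ D' → bd F c T = 0 := by
    intro j c hc T hT hT'
    refine bd_zero' fun v hv => hc _ ?_
    rintro ⟨h1, _⟩
    exact hT' (hd _ h1 _ hT (Finset.subset_insert _ _))
  have k2 : ∀ {c : Finset V → F}, (∀ T, T ∉ D → c T = 0) → c = rs (D \ D') c + rs D' c := by
    intro c hc
    funext T
    rw [Pi.add_apply]
    by_cases h1 : T ∈ D'
    · rw [rs_in h1, rs_out (fun h => h.2 h1), zero_add]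
    · rw [rs_out h1, add_zero]
      by_cases h2 : T ∈ D
      · rw [rs_in (show T ∈ D \ D' from ⟨h2, h1⟩)]
      · rw [rs_out (fun h => h2 h.1), hc T h2]
  have k4 : ∀ {j : ℕ} {c : Finset V → F}, Sup D j c → ∀ T, bd F c T = bd F (rs (D \ D') c) T + bd F (rs D' c) T := by
    intro j c hc T
    rw [← bd_add, ← k2 fun T hT => hc T fun h => hT h.1]
  refine ⟨(rsL D').comp (bd F), ?_, ?_, ?_⟩
  · intro c hc
    refine ⟨Sup.bd hc.1 D', fun T hT => ?_⟩
    rw [← cvx hD (Sup.mono hc.1 Set.diff_subset) (hs hT)]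
    refine bd_congr fun v hv => ?_
    by_cases h2 : insert v T ∈ D'
    · rw [rs_in (hs h2)]
      exact rs_in h2
    · by_cases h3 : insert v T ∈ D
      · rw [rs_in h3, hc.2 _ ⟨h3, h2⟩]
        exact rs_out h2
      · rw [rs_out h3]
        exact rs_out h2
  · intro c hc
    constructor
    · rintro ⟨e, he1, he2⟩
      have h1 : Cyc D (i + 1) (c - e) := by
        refine ⟨Sup.sub (Sup.mono hc.1 Set.diff_subset) (Sup.mono he1 hs), fun T hT => ?_⟩
        rw [bd_sub]
        by_cases h2 : T ∈ D'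
        · rw [he2 T h2]
          exact sub_eq_zero.2 (rs_in h2).symm
        · rw [hc.2 T ⟨hT, h2⟩, k1 he1 T hT h2, sub_zero]
      obtain ⟨g, hg1, hg2⟩ := hA _ _ h1
      refine ⟨rs (D \ D') g, Sup.rs hg1, fun T hT => ?_⟩
      have h3 := k4 hg1 T
      rw [k1 (Sup.rs hg1) T hT.1 hT.2, add_zero, hg2 T hT.1, Pi.sub_apply, he1 T fun h => hT.2 h.1, sub_zero] at h3
      exact h3.symm
    · rintro ⟨g, hg1, hg2⟩
      refine ⟨rs D' (c - bd F g), ?_, ?_⟩
      · intro T hT
        by_cases h1 : T ∈ D'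
        · rw [rs_in h1, Pi.sub_apply, hc.1 T fun h => h.1.2 h1, bd_deg hg1 fun h => hT ⟨h1, h⟩, sub_zero]
        · exact rs_out h1
      · intro T hT
        have h1 : bd F (rs D' (c - bd F g)) T = bd F (c - rs D (bd F g)) T := by
          refine bd_congr fun v hv => ?_
          by_cases h2 : insert v T ∈ D'
          · rw [rs_in h2, Pi.sub_apply, Pi.sub_apply, rs_in (hs h2)]
          · rw [rs_out h2, Pi.sub_apply]
            by_cases h3 : insert v T ∈ D
            · rw [rs_in h3, hg2 _ ⟨h3, h2⟩, sub_self]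
            · rw [rs_out h3, hc.1 _ fun h => h3 h.1.1, sub_zero]
        rw [h1, bd_sub, cvx hD (Sup.mono hg1 Set.diff_subset) (hs hT), sub_zero]
        exact (rs_in hT).symm
  · intro c hc
    have h1 : Cyc D i c := by
      refine ⟨(Sup.mono hc.1 hs), fun T hT => ?_⟩
      by_cases h2 : T ∈ D'
      · exact hc.2 T h2
      · exact k1 hc.1 T hT h2
    obtain ⟨e, he1, he2⟩ := hA _ _ h1
    refine ⟨rs (D \ D') e, ⟨Sup.rs he1, fun T hT => ?_⟩, rs D' e, Sup.rs he1, fun T hT => ?_⟩
    · have h3 := k4 he1 T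
      rw [k1 (Sup.rs he1) T hT.1 hT.2, add_zero, he2 T hT.1, hc.1 T fun h => hT.2 h.1] at h3
      exact h3.symm
    · have h3 := k4 he1 T
      rw [he2 T (hs hT)] at h3
      rw [Pi.sub_apply, h3]
      have h4 : ((rsL D').comp (bd F)) (rs (D \ D') e) T = bd F (rs (D \ D') e) T := rs_in hT
      rw [h4, add_sub_cancel_left]

theorem Iso.symm0 {D D' : Set (Finset V)} {i j : ℕ} (h : Iso F D i D' j) : H0 F D i ↔ H0 F D' j := by
  obtain ⟨φ, h1, h2, h3⟩ := h
  constructor
  · intro h c' hc'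
    obtain ⟨c, hc, h4⟩ := h3 c' hc'
    have h5 := Bdy.add h4 ((h2 c hc).2 (h c hc))
    rwa [sub_add_cancel] at h5
  · intro h c hc
    exact (h2 c hc).1 (h _ (h1 c hc))

theorem Iso.symm1 {D D' : Set (Finset V)} {i j : ℕ} (h : Iso F D i D' j) : H1 F D i ↔ H1 F D' j := by
  obtain ⟨φ, h1, h2, h3⟩ := h
  constructor
  · rintro ⟨z, hz1, hz2, hz3⟩
    refine ⟨φ z, h1 z hz1, fun h => hz2 ((h2 z hz1).1 h), fun c' hc' => ?_⟩
    obtain ⟨c, hc, h4⟩ := h3 c' hc'
    obtain ⟨a, ha⟩ := hz3 c hc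
    refine ⟨a, ?_⟩
    have h5 := Bdy.add h4 ((h2 _ (Cyc.sub hc (Cyc.smul a hz1))).2 ha)
    rw [map_sub, map_smul] at h5
    rwa [show c' - φ c + (φ c - a • φ z) = c' - a • φ z by abel] at h5
  · rintro ⟨z', hz1, hz2, hz3⟩
    obtain ⟨z, hz, h4⟩ := h3 z' hz1
    refine ⟨z, hz, fun h => hz2 ?_, fun c hc => ?_⟩
    · have h5 := Bdy.add h4 ((h2 z hz).2 h)
      rwa [sub_add_cancel] at h5
    · obtain ⟨a, ha⟩ := hz3 _ (h1 c hc)
      refine ⟨a, (h2 _ (Cyc.sub hc (Cyc.smul a hz))).1 ?_⟩
      have h5 := Bdy.add ha (Bdy.smul a h4)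
      rw [map_sub, map_smul]
      rwa [show φ c - a • z' + a • (z' - φ z) = φ c - a • φ z by rw [smul_sub]; abel] at h5

end Pool.Agent.V8H17.GC
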