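import Pool.Agent.V8H17.GC.L

/-!
# Stellar subdivisions preserve homology spheres
-/

set_option autoImplicit false

noncomputable section

open Classical

namespace Pool.Agent.V8H17.GC

open Pool.Agent.W907.SG Pool.Agent.V8H27.GC

variable {F : Type} [Field F] {V : Type} [Fintype V] [LinearOrder V]

/-- shift by a vertex, as a map -/
def shL (m : V) : (Finset V → F) →ₗ[F] (Finset V → F) where
  toFun c S := if m ∈ S then 0 else sg m S • c (insert m S)
  map_add' c d := by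
    funext S
    rw [Pi.add_apply, Pi.add_apply]
    split_ifs
    · rw [add_zero]
    · rw [smul_add]
  map_smul' a c := by
    funext S
    rw [RingHom.id_apply, Pi.smul_apply, Pi.smul_apply]
    split_ifs
    · rw [smul_zero]
    · exact smul_comm _ _ _

theorem shL_in {m : V} {c : Finset V → F} {S : Finset V} (h : m ∉ S) : shL m c S = sg m S • c (insert m S) := if_neg h

theorem bd_shL {m : V} (c : Finset V → F) {S : Finset V} (hS : m ∉ S) :
    bd F (shL m c) S = - (sg m S • bd F c (insert m S)) := by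
  have h2 : Sᶜ = insert m (insert m S)ᶜ := by
    ext v
    simp only [Finset.mem_compl, Finset.mem_insert, not_or]
    by_cases hv : v = m
    · simp [hv, hS]
    · simp [hv]
  have h3 : m ∉ (insert m S)ᶜ := by simp
  rw [bd_apply, h2, Finset.sum_insert h3, bd_apply, Finset.smul_sum, ← Finset.sum_neg_distrib]
  have h4 : shL m c (insert m S) = 0 := if_pos (Finset.mem_insert_self _ _)
  rw [h4, smul_zero, zero_add]
  refine Finset.sum_congr rfl fun v hv => ?_
  rw [Finset.mem_compl, Finset.mem_insert, not_or] at hv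
  have h6 : m ∉ insert v S := by
    rw [Finset.mem_insert, not_or]
    exact ⟨Ne.symm hv.1, hS⟩
  rw [shL_in h6, Finset.insert_comm, smul_smul, smul_smul, ← neg_smul]
  congr 1
  have h8 := sg_swap m v S (Ne.symm hv.1) hS hv.2
  have e1 := sg_mul_self m S
  linear_combination h8 + (0 : ℤ) * e1

/-- shift by a vertex -/
theorem iso_shift {D : Set (Finset V)} (m : V) (hm : ∀ T ∈ D, m ∉ T) (i : ℕ) :
    Iso F {T | m ∈ T ∧ T.erase m ∈ D} (i + 1) D i := by
  have k0 : ∀ {S : Finset V}, S ∈ D → insert m S ∈ {T : Finset V | m ∈ T ∧ T.erase m ∈ D} := by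
    intro S hS
    refine ⟨Finset.mem_insert_self _ _, ?_⟩
    rw [Finset.erase_insert (hm S hS)]
    exact hS
  have k1 : ∀ {j : ℕ} {c : Finset V → F}, Sup {T : Finset V | m ∈ T ∧ T.erase m ∈ D} (j + 1) c → Sup D j (shL m c) := by
    intro j c hc S hS
    by_cases h1 : m ∈ S
    · exact if_pos h1
    · rw [shL_in h1, hc, smul_zero]
      rintro ⟨⟨_, h2⟩, h3⟩
      rw [Finset.erase_insert h1] at h2
      rw [Finset.card_insert_of_notMem h1] at h3
      exact hS ⟨h2, by omega⟩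
  -- the inverse
  have k2 : ∀ {j : ℕ} (c : Finset V → F), Sup D j c → ∃ d : Finset V → F,
      Sup {T : Finset V | m ∈ T ∧ T.erase m ∈ D} (j + 1) d ∧ shL m d = c := by
    intro j c hc
    refine ⟨fun T => if m ∈ T then sg m (T.erase m) • c (T.erase m) else 0, ?_, ?_⟩
    · intro T hT
      show (if m ∈ T then sg m (T.erase m) • c (T.erase m) else 0) = 0
      split_ifs with h1
      · rw [hc, smul_zero]
        rintro ⟨h2, h3⟩
        exact hT ⟨⟨h1, h2⟩, by rw [← Finset.card_erase_add_one h1, h3]⟩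
      · rfl
    · funext S
      by_cases h1 : m ∈ S
      · rw [hc S fun h => hm S h.1 h1]
        exact if_pos h1
      · rw [shL_in h1]
        show sg m S • (if m ∈ insert m S then sg m ((insert m S).erase m) • c ((insert m S).erase m) else 0) = c S
        rw [if_pos (Finset.mem_insert_self _ _), Finset.erase_insert h1, smul_smul, sg_mul_self, one_smul]
  have k3 : ∀ (c : Finset V → F) {S : Finset V}, m ∉ S → bd F c (insert m S) = - (sg m S • bd F (shL m c) S) := by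
    intro c S hS
    rw [bd_shL c hS, smul_neg, neg_neg, smul_smul, sg_mul_self, one_smul]
  refine ⟨shL m, ?_, ?_, ?_⟩
  · intro c hc
    refine ⟨k1 hc.1, fun S hS => ?_⟩
    rw [bd_shL c (hm S hS), hc.2 _ (k0 hS), smul_zero, neg_zero]
  · intro c hc
    constructor
    · rintro ⟨e, he1, he2⟩
      obtain ⟨d, hd1, hd2⟩ := k2 e he1
      refine ⟨-d, ?_, ?_⟩
      · intro T hT
        rw [Pi.neg_apply, hd1 T hT, neg_zero]
      · rintro T ⟨hT1, hT2⟩
        obtain ⟨S, hS, rfl⟩ : ∃ S, m ∉ S ∧ T = insert m S :=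
          ⟨T.erase m, Finset.notMem_erase _ _, (Finset.insert_erase hT1).symm⟩
        rw [Finset.erase_insert hS] at hT2
        rw [map_neg, Pi.neg_apply, k3 d hS, neg_neg, hd2, he2 S hT2, shL_in hS, smul_smul, sg_mul_self, one_smul]
    · rintro ⟨e, he1, he2⟩
      refine ⟨- shL m e, ?_, ?_⟩
      · intro T hT
        rw [Pi.neg_apply, k1 he1 T hT, neg_zero]
      · intro S hS
        rw [map_neg, Pi.neg_apply, bd_shL e (hm S hS), neg_neg, he2 _ (k0 hS), shL_in (hm S hS)]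
  · intro c hc
    obtain ⟨d, hd1, hd2⟩ := k2 c hc.1
    refine ⟨d, ⟨hd1, ?_⟩, 0, fun T _ => rfl, ?_⟩
    · rintro T ⟨hT1, hT2⟩
      obtain ⟨S, hS, rfl⟩ : ∃ S, m ∉ S ∧ T = insert m S :=
        ⟨T.erase m, Finset.notMem_erase _ _, (Finset.insert_erase hT1).symm⟩
      rw [Finset.erase_insert hS] at hT2
      rw [k3 d hS, hd2, hc.2 S hT2, smul_zero, neg_zero]
    · intro T _
      rw [hd2, sub_self, map_zero]

/-- a single face -/
theorem one_H0 (W : Finset V) {i : ℕ} (hi : i ≠ W.card) : H0 F {W} i := by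
  intro c hc
  refine ⟨0, fun T _ => rfl, fun T hT => ?_⟩
  rw [map_zero, hc.1 T]
  · rfl
  · rintro ⟨h1, h2⟩
    rw [Set.mem_singleton_iff] at h1
    rw [h1] at h2
    exact hi h2.symm

theorem one_H1 (W : Finset V) : H1 F {W} W.card := by
  refine ⟨fun T => if T = W then 1 else 0, ⟨?_, ?_⟩, ?_, ?_⟩
  · intro T hT
    exact if_neg fun h => hT ⟨h, by rw [h]⟩
  · intro T hT
    rw [Set.mem_singleton_iff] at hT
    rw [hT]
    refine bd_zero' fun v hv => if_neg fun h => hv ?_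
    rw [← h]
    exact Finset.mem_insert_self _ _
  · rintro ⟨e, he1, he2⟩
    have h1 : bd F e W = 1 := (he2 W rfl).trans (if_pos rfl)
    have h2 : bd F e W = 0 := by
      refine bd_zero' fun v hv => he1 _ ?_
      rintro ⟨h2, _⟩
      rw [Set.mem_singleton_iff] at h2
      apply hv
      rw [← h2]
      exact Finset.mem_insert_self _ _
    rw [h2] at h1
    exact zero_ne_one h1
  · intro c hc
    refine ⟨c W, 0, fun T _ => rfl, fun T hT => ?_⟩
    rw [Set.mem_singleton_iff] at hT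
    have h1 : (c W • (fun T : Finset V => if T = W then (1 : F) else 0)) W = c W := by
      show c W * (if W = W then (1 : F) else 0) = c W
      rw [if_pos rfl, mul_one]
    rw [hT, map_zero, Pi.sub_apply, h1, sub_self]
    rfl

theorem start (W : Finset V) {n : ℕ} (hW : W.card = n + 1) : GS F n {T : Finset V | T ⊂ W} := by
  have key : ∀ σ : Finset V, σ ⊂ W → ∀ i, Iso F {W} (i + 1) (up {T : Finset V | T ⊂ W} σ) i := by
    intro σ hσ i
    obtain ⟨w, hw, hwσ⟩ := Finset.exists_of_ssubset hσ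
    have h1 : Iso F ({T : Finset V | σ ⊆ T ∧ T ⊆ W} \ up {T : Finset V | T ⊂ W} σ) (i + 1)
        (up {T : Finset V | T ⊂ W} σ) i := by
      refine iso_conn ?_ ?_ ?_ ?_ i
      · rintro S ⟨hS, _⟩ T ⟨_, hT⟩ R h1 h2
        exact ⟨hS.trans h1, h2.trans hT⟩
      · rintro T ⟨h1, h2⟩
        exact ⟨h2, h1.subset⟩
      · rintro T ⟨h1, _⟩ S ⟨h3, _⟩ h4
        exact ⟨lt_of_le_of_lt h4 h1, h3⟩
      · intro j
        refine toggle w (fun T hT => ?_) j
        constructor
        · rintro ⟨h1, h2⟩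
          exact ⟨h1.trans (Finset.subset_insert _ _), Finset.insert_subset hw h2⟩
        · rintro ⟨h1, h2⟩
          refine ⟨fun x hx => ?_, (Finset.subset_insert _ _).trans h2⟩
          rcases Finset.mem_insert.1 (h1 hx) with h3 | h3
          · exact absurd (h3 ▸ hx) hwσ
          · exact h3
    have h2 : ({T : Finset V | σ ⊆ T ∧ T ⊆ W} \ up {T : Finset V | T ⊂ W} σ) = {W} := by
      ext T
      constructor
      · rintro ⟨⟨h3, h4⟩, h5⟩
        by_contra h6
        exact h5 ⟨lt_of_le_of_ne h4 h6, h3⟩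
      · intro h3
        rw [Set.mem_singleton_iff] at h3
        rw [h3]
        exact ⟨⟨hσ.subset, subset_rfl⟩, fun h => (lt_irrefl W h.1)⟩
    rwa [h2] at h1
  refine ⟨fun T hT S hS => lt_of_le_of_lt hS hT, fun σ hσ => ?_, fun σ hσ i hi => ?_⟩
  · rw [← Iso.symm1 (key σ hσ n), ← hW]
    exact one_H1 W
  · rw [← Iso.symm0 (key σ hσ i)]
    exact one_H0 W (by omega)

theorem star_dn {K : Set (Finset V)} (hK : ∀ T ∈ K, ∀ S, S ⊆ T → S ∈ K) (A : Finset V) (m : V) (hm : ∀ T ∈ K, m ∉ T) :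
    ∀ T ∈ star A m K, ∀ S, S ⊆ T → S ∈ star A m K := by
  rintro T ⟨h1, h2⟩ S hS
  refine ⟨?_, fun h => h2 (h.trans hS)⟩
  rcases h1 with h1 | ⟨h1, h3⟩
  · exact Or.inl (hK T h1 S hS)
  · by_cases h4 : m ∈ S
    · exact Or.inr ⟨h4, hK _ h3 _ (Finset.union_subset_union (Finset.erase_subset_erase m hS) subset_rfl)⟩
    · refine Or.inl (hK _ h3 _ ?_)
      intro x hx
      exact Finset.mem_union_left _ (Finset.mem_erase.2 ⟨fun h => h4 (h ▸ hx), hS hx⟩)

section moves

variable {K : Set (Finset V)} (hK : ∀ T ∈ K, ∀ S, S ⊆ T → S ∈ K) {A : Finset V} {m : V}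
  (hAK : A ∈ K) (hm : ∀ T ∈ K, m ∉ T)

include hK hAK hm

/-- the union of the two complexes -/
def qq (K : Set (Finset V)) (A : Finset V) (m : V) : Set (Finset V) := {T | T ∈ K ∨ (m ∈ T ∧ T.erase m ∪ A ∈ K)}

omit [Fintype V] hAK hm in
theorem qq_dn (T : Finset V) (hT : T ∈ qq K A m) (S : Finset V) (hS : S ⊆ T) : S ∈ qq K A m := by
  rcases hT with h1 | ⟨h1, h3⟩
  · exact Or.inl (hK T h1 S hS)
  · by_cases h4 : m ∈ S
    · exact Or.inr ⟨h4, hK _ h3 _ (Finset.union_subset_union (Finset.erase_subset_erase m hS) subset_rfl)⟩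
    · refine Or.inl (hK _ h3 _ ?_)
      intro x hx
      exact Finset.mem_union_left _ (Finset.mem_erase.2 ⟨fun h => h4 (h ▸ hx), hS hx⟩)

/-- faces of both complexes -/
theorem iso_old {σ : Finset V} (hσ : σ ∈ K) (hA : ¬ A ⊆ σ) (i : ℕ) :
    Iso F (up K σ) i (up (qq K A m) σ) i ∧ Iso F (up (star A m K) σ) i (up (qq K A m) σ) i := by
  have hcv : Convex (up (qq K A m) σ) := by
    rintro S ⟨_, h1⟩ T ⟨h2, _⟩ R h3 h4
    exact ⟨qq_dn hK T h2 R h4, h1.trans h3⟩
  have hmA : m ∉ A := hm A hAK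
  refine ⟨iso_sub hcv ?_ ?_ ?_ i, iso_sub hcv ?_ ?_ ?_ i⟩
  · rintro T ⟨h1, h2⟩
    exact ⟨Or.inl h1, h2⟩
  · rintro T ⟨h1, _⟩ S ⟨_, h2⟩ h3
    exact ⟨hK T h1 S h3, h2⟩
  · intro j
    obtain ⟨a, ha, haσ⟩ := Finset.not_subset.1 hA
    have ham : a ≠ m := fun h => hmA (h ▸ ha)
    refine toggle a (fun T hT => ?_) j
    have e1 : (insert a T).erase m ∪ A = T.erase m ∪ A := by
      ext x
      simp only [Finset.mem_union, Finset.mem_erase, Finset.mem_insert]
      constructor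
      · rintro (⟨h1, rfl | h2⟩ | h)
        · exact Or.inr ha
        · exact Or.inl ⟨h1, h2⟩
        · exact Or.inr h
      · rintro (⟨h1, h2⟩ | h)
        · exact Or.inl ⟨h1, Or.inr h2⟩
        · exact Or.inr h
    constructor
    · rintro ⟨⟨h1 | ⟨h1, h2⟩, h3⟩, h4⟩
      · exact absurd ⟨h1, h3⟩ h4
      · refine ⟨⟨Or.inr ⟨Finset.mem_insert_of_mem h1, by rwa [e1]⟩, h3.trans (Finset.subset_insert _ _)⟩, ?_⟩
        rintro ⟨h5, _⟩
        exact hm _ h5 (Finset.mem_insert_of_mem h1)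
    · rintro ⟨⟨h1 | ⟨h1, h2⟩, h3⟩, h4⟩
      · exact absurd ⟨h1, h3⟩ h4
      · have h6 : m ∈ T := by
          rcases Finset.mem_insert.1 h1 with h | h
          · exact absurd h.symm ham
          · exact h
        refine ⟨⟨Or.inr ⟨h6, by rwa [e1] at h2⟩, ?_⟩, ?_⟩
        · intro x hx
          rcases Finset.mem_insert.1 (h3 hx) with h | h
          · exact absurd (h ▸ hx) haσ
          · exact h
        · rintro ⟨h5, _⟩
          exact hm _ h5 h6
  · rintro T ⟨⟨h1, _⟩, h2⟩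
    exact ⟨h1, h2⟩
  · rintro T ⟨⟨_, h1⟩, _⟩ S ⟨h2, h3⟩ h4
    exact ⟨⟨h2, fun h => h1 (h.trans h4)⟩, h3⟩
  · intro j
    refine toggle m (fun T hT => ?_) j
    have e1 : (insert m T).erase m = T := Finset.erase_insert hT
    have e2 : A ⊆ insert m T ↔ A ⊆ T := by
      constructor
      · intro h x hx
        rcases Finset.mem_insert.1 (h hx) with h1 | h1
        · exact absurd (h1 ▸ hx) hmA
        · exact h1
      · exact fun h => h.trans (Finset.subset_insert _ _)
    constructor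
    · rintro ⟨⟨h1, h3⟩, h4⟩
      have h5 : A ⊆ T := by
        by_contra h
        exact h4 ⟨⟨h1, h⟩, h3⟩
      have h6 : T ∈ K := by
        rcases h1 with h1 | ⟨h1, _⟩
        · exact h1
        · exact absurd h1 hT
      refine ⟨⟨Or.inr ⟨Finset.mem_insert_self _ _, ?_⟩, h3.trans (Finset.subset_insert _ _)⟩, ?_⟩
      · rw [e1, Finset.union_eq_left.2 h5]
        exact h6
      · rintro ⟨⟨_, h7⟩, _⟩
        exact h7 (e2.2 h5)
    · rintro ⟨⟨h1, h3⟩, h4⟩
      have h5 : A ⊆ T := by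
        rw [← e2]
        by_contra h
        exact h4 ⟨⟨h1, h⟩, h3⟩
      have h6 : T ∈ K := by
        rcases h1 with h1 | ⟨_, h1⟩
        · exact absurd (Finset.mem_insert_self _ _) (hm _ h1)
        · rw [e1, Finset.union_eq_left.2 h5] at h1
          exact h1
      refine ⟨⟨Or.inl h6, ?_⟩, ?_⟩
      · intro x hx
        rcases Finset.mem_insert.1 (h3 hx) with h | h
        · exact absurd (h ▸ hx) (hm σ hσ)
        · exact h
      · rintro ⟨⟨_, h7⟩, _⟩
        exact h7 h5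

/-- the links of the new faces -/
theorem iso_new {ρ : Finset V} (hmρ : m ∉ ρ) (hA : ¬ A ⊆ ρ) (i : ℕ) :
    (H0 F (up K (ρ ∪ A)) i ↔ H0 F (up (star A m K) (insert m ρ)) i) ∧
    (H1 F (up K (ρ ∪ A)) i ↔ H1 F (up (star A m K) (insert m ρ)) i) := by
  have hmA : m ∉ A := hm A hAK
  obtain ⟨a, ha, haρ⟩ := Finset.not_subset.1 hA
  rcases i with _ | i
  · have k1 : ∀ D : Set (Finset V), ∅ ∉ D → H0 F D 0 ∧ ¬ H1 F D 0 := by
      intro D hD
      have h0 : ∀ c : Finset V → F, Cyc D 0 c → c = 0 := by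
        intro c hc
        funext T
        refine hc.1 T ?_
        rintro ⟨h1, h2⟩
        rw [Finset.card_eq_zero] at h2
        exact hD (h2 ▸ h1)
      have h1 : Bdy D 0 (0 : Finset V → F) := ⟨0, fun T _ => rfl, fun T _ => by rw [map_zero]⟩
      refine ⟨fun c hc => ?_, ?_⟩
      · rw [h0 c hc]
        exact h1
      · rintro ⟨z, hz, hz2, _⟩
        rw [h0 z hz] at hz2
        exact hz2 h1
    have k2 := k1 (up K (ρ ∪ A)) (by
      rintro ⟨_, h⟩
      exact Finset.notMem_empty a (h (Finset.mem_union_right _ ha)))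
    have k3 := k1 (up (star A m K) (insert m ρ)) (by
      rintro ⟨_, h⟩
      exact Finset.notMem_empty m (h (Finset.mem_insert_self _ _)))
    exact ⟨iff_of_true k2.1 k3.1, iff_of_false k2.2 k3.2⟩
  · have h1 : Iso F ({T : Finset V | m ∉ T ∧ T ∪ A ∈ K ∧ ρ ⊆ T} \ {T : Finset V | m ∉ T ∧ T ∪ A ∈ K ∧ ρ ⊆ T ∧ ¬ A ⊆ T})
        (i + 1) {T : Finset V | m ∉ T ∧ T ∪ A ∈ K ∧ ρ ⊆ T ∧ ¬ A ⊆ T} i := by
      refine iso_conn ?_ ?_ ?_ ?_ i
      · rintro S ⟨_, _, h1⟩ T ⟨h2, h3, _⟩ R h4 h5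
        exact ⟨fun h => h2 (h5 h), hK _ h3 _ (Finset.union_subset_union h5 subset_rfl), h1.trans h4⟩
      · rintro T ⟨h1, h2, h3, _⟩
        exact ⟨h1, h2, h3⟩
      · rintro T ⟨_, _, _, h1⟩ S ⟨h2, h3, h4⟩ h5
        exact ⟨h2, h3, h4, fun h => h1 (h.trans h5)⟩
      · intro j
        have ham : a ≠ m := fun h => hmA (h ▸ ha)
        refine toggle a (fun T hT => ?_) j
        have e1 : insert a T ∪ A = T ∪ A := by
          rw [Finset.insert_union, Finset.insert_eq_of_mem (Finset.mem_union_right _ ha)]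
        constructor
        · rintro ⟨h1, h2, h3⟩
          refine ⟨?_, by rwa [e1], h3.trans (Finset.subset_insert _ _)⟩
          rw [Finset.mem_insert, not_or]
          exact ⟨Ne.symm ham, h1⟩
        · rintro ⟨h1, h2, h3⟩
          refine ⟨fun h => h1 (Finset.mem_insert_of_mem h), by rwa [e1] at h2, ?_⟩
          intro x hx
          rcases Finset.mem_insert.1 (h3 hx) with h | h
          · exact absurd (h ▸ hx) haρ
          · exact h
    have e1 : ({T : Finset V | m ∉ T ∧ T ∪ A ∈ K ∧ ρ ⊆ T} \ {T : Finset V | m ∉ T ∧ T ∪ A ∈ K ∧ ρ ⊆ T ∧ ¬ A ⊆ T}) =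
        up K (ρ ∪ A) := by
      ext T
      constructor
      · rintro ⟨⟨h1, h2, h3⟩, h4⟩
        have h5 : A ⊆ T := by
          by_contra h
          exact h4 ⟨h1, h2, h3, h⟩
        rw [Finset.union_eq_left.2 h5] at h2
        exact ⟨h2, Finset.union_subset h3 h5⟩
      · rintro ⟨h1, h2⟩
        have h5 : A ⊆ T := Finset.union_subset_right h2
        refine ⟨⟨hm T h1, ?_, Finset.union_subset_left h2⟩, fun h => h.2.2.2 h5⟩
        rw [Finset.union_eq_left.2 h5]
        exact h1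
    have h2 := iso_shift (F := F) (D := {T : Finset V | m ∉ T ∧ T ∪ A ∈ K ∧ ρ ⊆ T ∧ ¬ A ⊆ T}) m (fun T hT => hT.1) i
    have e2 : {T : Finset V | m ∈ T ∧ T.erase m ∈ {T : Finset V | m ∉ T ∧ T ∪ A ∈ K ∧ ρ ⊆ T ∧ ¬ A ⊆ T}} =
        up (star A m K) (insert m ρ) := by
      ext T
      constructor
      · rintro ⟨h1, _, h2, h3, h4⟩
        refine ⟨⟨Or.inr ⟨h1, h2⟩, fun h => h4 ?_⟩, ?_⟩
        · intro x hx
          exact Finset.mem_erase.2 ⟨fun e => hmA (e ▸ hx), h hx⟩
        · exact Finset.insert_subset h1 (h3.trans (Finset.erase_subset _ _))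
      · rintro ⟨⟨h1, h2⟩, h3⟩
        have h4 : m ∈ T := h3 (Finset.mem_insert_self _ _)
        refine ⟨h4, Finset.notMem_erase _ _, ?_, ?_, ?_⟩
        · rcases h1 with h1 | ⟨_, h1⟩
          · exact absurd h4 (hm T h1)
          · exact h1
        · intro x hx
          exact Finset.mem_erase.2 ⟨fun e => hmρ (e ▸ hx), h3 (Finset.mem_insert_of_mem hx)⟩
        · exact fun h => h2 (h.trans (Finset.erase_subset _ _))
    rw [e1] at h1
    rw [e2] at h2
    exact ⟨(Iso.symm0 h1).trans (Iso.symm0 h2).symm, (Iso.symm1 h1).trans (Iso.symm1 h2).symm⟩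

end moves

theorem star_iff {n : ℕ} {K : Set (Finset V)} (hK : ∀ T ∈ K, ∀ S, S ⊆ T → S ∈ K) {A : Finset V} {m : V}
    (hA : A.Nonempty) (hAK : A ∈ K) (hm : ∀ T ∈ K, m ∉ T) : GS F n K ↔ GS F n (star A m K) := by
  have hmA : m ∉ A := hm A hAK
  -- the faces of `star A m K`
  have k1 : ∀ σ ∈ star A m K, (m ∉ σ ∧ σ ∈ K ∧ ¬ A ⊆ σ) ∨
      (∃ ρ, m ∉ ρ ∧ ¬ A ⊆ ρ ∧ ρ ∪ A ∈ K ∧ σ = insert m ρ) := by
    rintro σ ⟨h1, h2⟩
    by_cases h3 : m ∈ σ
    · right
      refine ⟨σ.erase m, Finset.notMem_erase _ _, fun h => h2 (h.trans (Finset.erase_subset _ _)), ?_,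
        (Finset.insert_erase h3).symm⟩
      rcases h1 with h1 | ⟨_, h1⟩
      · exact absurd h3 (hm σ h1)
      · exact h1
    · left
      rcases h1 with h1 | ⟨h1, _⟩
      · exact ⟨h3, h1, h2⟩
      · exact absurd h1 h3
  -- the faces of `K`
  have k2 : ∀ σ ∈ K, (¬ A ⊆ σ ∧ σ ∈ star A m K) ∨
      (∃ ρ, m ∉ ρ ∧ ¬ A ⊆ ρ ∧ insert m ρ ∈ star A m K ∧ σ = ρ ∪ A) := by
    intro σ hσ
    by_cases h1 : A ⊆ σ
    · right
      obtain ⟨a, ha⟩ := hA
      have h2 : a ∉ σ.erase a := Finset.notMem_erase _ _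
      have h3 : m ∉ σ := hm σ hσ
      have h4 : σ.erase a ∪ A = σ := by
        apply Finset.Subset.antisymm
        · exact Finset.union_subset (Finset.erase_subset _ _) h1
        · intro x hx
          by_cases hxa : x = a
          · exact Finset.mem_union_right _ (hxa ▸ ha)
          · exact Finset.mem_union_left _ (Finset.mem_erase.2 ⟨hxa, hx⟩)
      have h5 : m ∉ σ.erase a := fun h => h3 (Finset.mem_of_mem_erase h)
      refine ⟨σ.erase a, h5, fun h => h2 (h ha), ⟨Or.inr ⟨Finset.mem_insert_self _ _, ?_⟩, ?_⟩, h4.symm⟩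
      · rw [Finset.erase_insert h5, h4]
        exact hσ
      · intro h
        rcases Finset.mem_insert.1 (h ha) with h6 | h6
        · exact hmA (h6 ▸ ha)
        · exact h2 h6
    · left
      exact ⟨h1, Or.inl hσ, h1⟩
  constructor
  · intro h
    refine ⟨star_dn hK A m hm, fun σ hσ => ?_, fun σ hσ i hi => ?_⟩
    · rcases k1 σ hσ with ⟨_, h2, h3⟩ | ⟨ρ, h1, h2, h3, rfl⟩
      · obtain ⟨e1, e2⟩ := iso_old (F := F) hK hAK hm h2 h3 n
        exact (Iso.symm1 e2).2 ((Iso.symm1 e1).1 (h.top σ h2))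
      · exact ((iso_new (F := F) hK hAK hm h1 h2 n).2).1 (h.top _ h3)
    · rcases k1 σ hσ with ⟨_, h2, h3⟩ | ⟨ρ, h1, h2, h3, rfl⟩
      · obtain ⟨e1, e2⟩ := iso_old (F := F) hK hAK hm h2 h3 i
        exact (Iso.symm0 e2).2 ((Iso.symm0 e1).1 (h.oth σ h2 i hi))
      · exact ((iso_new (F := F) hK hAK hm h1 h2 i).1).1 (h.oth _ h3 i hi)
  · intro h
    refine ⟨hK, fun σ hσ => ?_, fun σ hσ i hi => ?_⟩
    · rcases k2 σ hσ with ⟨h3, h2⟩ | ⟨ρ, h1, h2, h3, rfl⟩
      · obtain ⟨e1, e2⟩ := iso_old (F := F) hK hAK hm hσ h3 n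
        exact (Iso.symm1 e1).2 ((Iso.symm1 e2).1 (h.top σ h2))
      · exact ((iso_new (F := F) hK hAK hm h1 h2 n).2).2 (h.top _ h3)
    · rcases k2 σ hσ with ⟨h3, h2⟩ | ⟨ρ, h1, h2, h3, rfl⟩
      · obtain ⟨e1, e2⟩ := iso_old (F := F) hK hAK hm hσ h3 i
        exact (Iso.symm0 e1).2 ((Iso.symm0 e2).1 (h.oth σ h2 i hi))
      · exact ((iso_new (F := F) hK hAK hm h1 h2 i).1).2 (h.oth _ h3 i hi)

omit [Fintype V] in
theorem PLC.dn' {n : ℕ} {K : Set (Finset V)} (h : PLC n K) : ∀ T ∈ K, ∀ S, S ⊆ T → S ∈ K := by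
  induction h with
  | base W hW => exact fun T hT S hS => lt_of_le_of_lt hS hT
  | star K A m _ _ _ hm ih =>
    rintro T ⟨h1, h2⟩ S hS
    refine ⟨?_, fun h => h2 (h.trans hS)⟩
    rcases h1 with h1 | ⟨h1, h3⟩
    · exact Or.inl (ih T h1 S hS)
    · by_cases h4 : m ∈ S
      · exact Or.inr ⟨h4, ih _ h3 _ (Finset.union_subset_union (Finset.erase_subset_erase m hS) subset_rfl)⟩
      · refine Or.inl (ih _ h3 _ ?_)
        intro x hx
        exact Finset.mem_union_left _ (Finset.mem_erase.2 ⟨fun h => h4 (h ▸ hx), hS hx⟩)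
  | unstar K A m hK _ _ _ _ _ => exact hK

theorem PLC.gs' {n : ℕ} {K : Set (Finset V)} (h : PLC n K) : GS F n K := by
  induction h with
  | base W hW => exact start W hW
  | star K A m h1 hAK hA hm ih => exact (star_iff (PLC.dn' h1) hA hAK hm).1 ih
  | unstar K A m hK hAK hA hm _ ih => exact (star_iff hK hA hAK hm).2 ih

end Pool.Agent.V8H17.GC
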